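import Mathlib

/-!
# The lexicographic order on the subsets of `Fin n` and transversals of block decompositions
-/

set_option autoImplicit false
set_option linter.all false

open Finset

namespace Pool.Agent.X317.Lex

variable {n : ℕ}

/-- the squarefree monomial of `A` is larger than that of `B` -/
def Gt (A B : Finset (Fin n)) : Prop := ∃ s ∈ A, s ∉ B ∧ ∀ t < s, (t ∈ A ↔ t ∈ B)

def Ge (A B : Finset (Fin n)) : Prop := A = B ∨ Gt A B

/-- the binary number -/
def val (A : Finset (Fin n)) : ℕ := ∑ i ∈ A, 2 ^ (n - 1 - (i : ℕ))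

theorem val_lt_of_gt {A B : Finset (Fin n)} (h : Gt A B) : val B < val A := by
  classical
  obtain ⟨s, hsA, hsB, hst⟩ := h
  unfold val
  rw [← Finset.sum_filter_add_sum_filter_not A (fun t => t < s),
    ← Finset.sum_filter_add_sum_filter_not B (fun t => t < s)]
  have h1 : A.filter (fun t => t < s) = B.filter (fun t => t < s) := by
    ext t
    rw [Finset.mem_filter, Finset.mem_filter]
    constructor
    · rintro ⟨h, h'⟩
      exact ⟨(hst t h').1 h, h'⟩
    · rintro ⟨h, h'⟩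
      exact ⟨(hst t h').2 h, h'⟩
  rw [h1]
  apply Nat.add_lt_add_left
  have h2 : 2 ^ (n - 1 - (s : ℕ)) ≤ ∑ i ∈ A.filter (fun t => ¬ t < s), 2 ^ (n - 1 - (i : ℕ)) :=
    Finset.single_le_sum (f := fun i : Fin n => 2 ^ (n - 1 - (i : ℕ))) (fun _ _ => Nat.zero_le _)
      (Finset.mem_filter.2 ⟨hsA, lt_irrefl s⟩)
  refine lt_of_lt_of_le ?_ h2
  have hinj : Set.InjOn (fun i : Fin n => n - 1 - (i : ℕ)) (B.filter (fun t => ¬ t < s)) := by
    intro i _ j _ hij
    have := i.2
    have := j.2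
    simp only at hij
    exact Fin.ext (by omega)
  rw [← Finset.sum_image (f := fun j => 2 ^ j) hinj]
  refine Nat.geomSum_lt le_rfl ?_
  intro j hj
  rw [Finset.mem_image] at hj
  obtain ⟨i, hi, rfl⟩ := hj
  rw [Finset.mem_filter] at hi
  have h3 : i ≠ s := fun h => hsB (h ▸ hi.1)
  have h4 : s < i := lt_of_le_of_ne (not_lt.1 hi.2) (Ne.symm h3)
  have := i.2
  have h5 : (s : ℕ) < i := h4
  omega

theorem trich {A B : Finset (Fin n)} (h : A ≠ B) : Gt A B ∨ Gt B A := by
  classical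
  have h1 : (univ.filter (fun s : Fin n => ¬ (s ∈ A ↔ s ∈ B))).Nonempty := by
    by_contra h2
    rw [Finset.not_nonempty_iff_eq_empty, Finset.filter_eq_empty_iff] at h2
    apply h
    ext s
    have := h2 (Finset.mem_univ s)
    rw [not_not] at this
    exact this
  set s := (univ.filter (fun s : Fin n => ¬ (s ∈ A ↔ s ∈ B))).min' h1 with hs
  have h2 : ¬ (s ∈ A ↔ s ∈ B) := (Finset.mem_filter.1 (Finset.min'_mem _ h1)).2
  have h3 : ∀ t < s, (t ∈ A ↔ t ∈ B) := by
    intro t ht
    by_contra h4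
    have h5 : t ∈ univ.filter (fun s : Fin n => ¬ (s ∈ A ↔ s ∈ B)) := by
      rw [Finset.mem_filter]
      exact ⟨Finset.mem_univ _, h4⟩
    have := Finset.min'_le _ t h5
    exact absurd ht (not_lt.2 this)
  by_cases h4 : s ∈ A
  · exact Or.inl ⟨s, h4, fun h5 => h2 ⟨fun _ => h5, fun _ => h4⟩, h3⟩
  · right
    have h5 : s ∈ B := by
      by_contra h5
      exact h2 ⟨fun h => absurd h h4, fun h => absurd h h5⟩
    exact ⟨s, h5, h4, fun t ht => (h3 t ht).symm⟩

theorem gt_iff {A B : Finset (Fin n)} : Gt A B ↔ val B < val A := by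
  refine ⟨val_lt_of_gt, fun h => ?_⟩
  by_cases h1 : A = B
  · rw [h1] at h
    exact absurd h (lt_irrefl _)
  · rcases trich h1 with h2 | h2
    · exact h2
    · exact absurd (val_lt_of_gt h2) (not_lt.2 h.le)

theorem val_inj {A B : Finset (Fin n)} (h : val A = val B) : A = B := by
  by_contra h1
  rcases trich h1 with h2 | h2
  · exact absurd (val_lt_of_gt h2) (by omega)
  · exact absurd (val_lt_of_gt h2) (by omega)

theorem ge_iff {A B : Finset (Fin n)} : Ge A B ↔ val B ≤ val A := by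
  unfold Ge
  rw [gt_iff]
  constructor
  · rintro (rfl | h)
    · exact le_rfl
    · exact h.le
  · intro h
    rcases h.lt_or_eq with h | h
    · exact Or.inr h
    · exact Or.inl (val_inj h).symm

/-- the number of the block of `w` -/
def cnt (G : Finset (Fin n)) (w : Fin n) : ℕ := (G.filter (fun g => g ≤ w)).card

theorem cnt_mono (G : Finset (Fin n)) {w w' : Fin n} (h : w ≤ w') : cnt G w ≤ cnt G w' :=
  Finset.card_le_card fun g hg => by
    rw [Finset.mem_filter] at hg ⊢
    exact ⟨hg.1, hg.2.trans h⟩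

theorem cnt_lt (G : Finset (Fin n)) {w w' g : Fin n} (hg : g ∈ G) (h : w < g) (h' : g ≤ w') :
    cnt G w < cnt G w' := by
  apply Finset.card_lt_card
  rw [Finset.ssubset_iff_of_subset]
  · exact ⟨g, Finset.mem_filter.2 ⟨hg, h'⟩, fun h1 => absurd (Finset.mem_filter.1 h1).2 (not_le.2 h)⟩
  · intro x hx
    rw [Finset.mem_filter] at hx ⊢
    exact ⟨hx.1, (hx.2.trans h.le).trans h'⟩

theorem exists_mem_of_cnt_lt (G : Finset (Fin n)) {w w' : Fin n} (h : cnt G w < cnt G w') :
    ∃ g ∈ G, w < g ∧ g ≤ w' := by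
  by_contra hcon
  push Not at hcon
  apply absurd h
  rw [not_lt]
  refine Finset.card_le_card fun g hg => ?_
  rw [Finset.mem_filter] at hg ⊢
  refine ⟨hg.1, ?_⟩
  by_contra h1
  exact absurd hg.2 (not_le.2 (hcon g hg.1 (not_le.1 h1)))

/-- `W` has one element in each block of `G`. -/
def Tr (G W : Finset (Fin n)) : Prop := W.card = G.card ∧ Set.InjOn (cnt G) W

theorem cnt_le (G : Finset (Fin n)) (w : Fin n) : cnt G w ≤ G.card := Finset.card_filter_le _ _

variable [NeZero n]

theorem cnt_pos {G : Finset (Fin n)} (h0 : 0 ∈ G) (w : Fin n) : 0 < cnt G w :=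
  Finset.card_pos.2 ⟨0, Finset.mem_filter.2 ⟨h0, Fin.le_def.2 (by simp)⟩⟩

theorem Tr.surj {G W : Finset (Fin n)} (h : Tr G W) (h0 : 0 ∈ G) (s : Fin n) :
    ∃ w ∈ W, cnt G w = cnt G s := by
  have h1 : W.image (cnt G) = Finset.Icc 1 G.card := by
    apply Finset.eq_of_subset_of_card_le
    · intro c hc
      rw [Finset.mem_image] at hc
      obtain ⟨w, -, rfl⟩ := hc
      exact Finset.mem_Icc.2 ⟨cnt_pos h0 w, cnt_le G w⟩
    · rw [Finset.card_image_of_injOn h.2, Nat.card_Icc, h.1]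
      omega
  have h2 : cnt G s ∈ W.image (cnt G) := by
    rw [h1]
    exact Finset.mem_Icc.2 ⟨cnt_pos h0 s, cnt_le G s⟩
  rw [Finset.mem_image] at h2
  exact h2

theorem tr_self (G : Finset (Fin n)) : Tr G G := by
  refine ⟨rfl, ?_⟩
  intro a ha b hb hab
  by_contra hne
  rcases lt_or_gt_of_ne hne with h | h
  · have := cnt_lt G hb h le_rfl
    omega
  · have := cnt_lt G ha h le_rfl
    omega

theorem Tr.ge {G W : Finset (Fin n)} (h : Tr G W) (h0 : 0 ∈ G) : Ge G W := by
  by_cases he : G = W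
  · exact Or.inl he
  right
  rcases trich he with h1 | ⟨s, hsW, hsG, hst⟩
  · exact h1
  exfalso
  have hs0 : s ≠ 0 := fun h => hsG (h ▸ h0)
  have hne : (G.filter (fun g => g < s)).Nonempty :=
    ⟨0, Finset.mem_filter.2 ⟨h0, Fin.pos_iff_ne_zero.2 hs0⟩⟩
  set g := (G.filter (fun g => g < s)).max' hne with hg
  have hgm := Finset.mem_filter.1 (Finset.max'_mem _ hne)
  rw [← hg] at hgm
  have hgW : g ∈ W := (hst g hgm.2).2 hgm.1
  have h1 : cnt G g = cnt G s := by
    by_contra hc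
    have h2 : cnt G g < cnt G s := lt_of_le_of_ne (cnt_mono G hgm.2.le) hc
    obtain ⟨g', hg', h3, h4⟩ := exists_mem_of_cnt_lt G h2
    have h5 : g' < s := lt_of_le_of_ne h4 (fun h => hsG (h ▸ hg'))
    have h7 : g' ∈ G.filter (fun g => g < s) := by
      rw [Finset.mem_filter]
      exact ⟨hg', h5⟩
    have h6 := Finset.le_max' _ g' h7
    rw [← hg] at h6
    exact absurd h3 (not_lt.2 h6)
  have h2 := h.2 hgW hsW h1
  rw [h2] at hgm
  exact lt_irrefl _ hgm.2

/-- the monomial `x_(i_2 - 1) ⋯ x_(i_q - 1) x_n` for `G = {1, i_2, …, i_q}` -/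
def w0 (G : Finset (Fin n)) : Finset (Fin n) :=
  univ.filter fun j => (∃ t ∈ G, (t : ℕ) = j + 1) ∨ (j : ℕ) + 1 = n

theorem mem_w0 {G : Finset (Fin n)} {j : Fin n} :
    j ∈ w0 G ↔ (∃ t ∈ G, (t : ℕ) = j + 1) ∨ (j : ℕ) + 1 = n := by
  unfold w0
  rw [Finset.mem_filter]
  exact ⟨fun h => h.2, fun h => ⟨Finset.mem_univ _, h⟩⟩

theorem cnt_lt_w0 {G : Finset (Fin n)} {w w' : Fin n} (hw : w ∈ w0 G) (h : w < w') :
    cnt G w < cnt G w' := by
  rw [mem_w0] at hw
  rcases hw with ⟨t, ht, htw⟩ | hw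
  · exact cnt_lt G ht (Fin.lt_def.2 (by omega)) (Fin.le_def.2 (by
      have := Fin.lt_def.1 h
      omega))
  · have := Fin.lt_def.1 h
    have := w'.2
    omega

theorem injOn_w0 (G : Finset (Fin n)) : Set.InjOn (cnt G) (w0 G) := by
  intro a ha b hb hab
  by_contra hne
  rcases lt_or_gt_of_ne hne with h | h
  · have := cnt_lt_w0 ha h
    omega
  · have := cnt_lt_w0 hb h
    omega

theorem tr_w0 {G : Finset (Fin n)} (h0 : 0 ∈ G) : Tr G (w0 G) := by
  have hn : 0 < n := Nat.pos_of_ne_zero (NeZero.ne n)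
  refine ⟨le_antisymm ?_ ?_, injOn_w0 G⟩
  · rw [← Finset.card_image_of_injOn (injOn_w0 G)]
    have h1 : (w0 G).image (cnt G) ⊆ Finset.Icc 1 G.card := by
      intro c hc
      rw [Finset.mem_image] at hc
      obtain ⟨w, -, rfl⟩ := hc
      exact Finset.mem_Icc.2 ⟨cnt_pos h0 w, cnt_le G w⟩
    have h2 := Finset.card_le_card h1
    rw [Nat.card_Icc] at h2
    omega
  · refine Finset.card_le_card_of_injOn
      (fun g => if (g : ℕ) = 0 then ⟨n - 1, by omega⟩ else ⟨(g : ℕ) - 1, by have := g.2; omega⟩)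
      ?_ ?_
    · intro g hg
      rw [Finset.mem_coe] at hg ⊢
      simp only
      rw [mem_w0]
      split_ifs with h
      · right
        simp only
        omega
      · left
        exact ⟨g, hg, by simp only; omega⟩
    · intro a _ b _ hab
      simp only at hab
      have ha := a.2
      have hb := b.2
      split_ifs at hab with h1 h2 h2
      · exact Fin.ext (by omega)
      · have := congrArg Fin.val hab
        simp only at this
        omega
      · have := congrArg Fin.val hab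
        simp only at this
        omega
      · have := congrArg Fin.val hab
        simp only at this
        exact Fin.ext (by omega)

theorem Tr.ge_w0 {G W : Finset (Fin n)} (h : Tr G W) (h0 : 0 ∈ G) : Ge W (w0 G) := by
  by_cases he : W = w0 G
  · exact Or.inl he
  right
  rcases trich he with h1 | ⟨s, hs, hsW, hst⟩
  · exact h1
  exfalso
  obtain ⟨w, hw, hws⟩ := h.surj h0 s
  have hne : w ≠ s := fun h => hsW (h ▸ hw)
  rcases lt_or_gt_of_ne hne with h1 | h1
  · have h2 : w ∈ w0 G := (hst w h1).2 hw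
    exact hne (injOn_w0 G h2 hs hws)
  · have := cnt_lt_w0 hs h1
    omega

theorem w0_gt {G H : Finset (Fin n)} (hG : 0 ∈ G) (hH : 0 ∈ H) (h : Gt G H) :
    Gt (w0 G) (w0 H) := by
  obtain ⟨s, hs, hsH, hst⟩ := h
  have hs0 : (s : ℕ) ≠ 0 := by
    intro h
    apply hsH
    have : s = 0 := Fin.ext (by rw [h]; rfl)
    rw [this]
    exact hH
  have hsn := s.2
  refine ⟨⟨(s : ℕ) - 1, by omega⟩, ?_, ?_, ?_⟩
  · rw [mem_w0]
    exact Or.inl ⟨s, hs, by simp only; omega⟩
  · rw [mem_w0]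
    rintro (⟨t, ht, hts⟩ | h1)
    · simp only at hts
      have : t = s := Fin.ext (by omega)
      exact hsH (this ▸ ht)
    · simp only at h1
      omega
  · intro t ht
    have ht' : (t : ℕ) < (s : ℕ) - 1 := ht
    rw [mem_w0, mem_w0]
    have hiff : (∃ t' ∈ G, (t' : ℕ) = t + 1) ↔ (∃ t' ∈ H, (t' : ℕ) = t + 1) := by
      constructor
      · rintro ⟨t', h1, h2⟩
        exact ⟨t', (hst t' (Fin.lt_def.2 (by omega))).1 h1, h2⟩
      · rintro ⟨t', h1, h2⟩
        exact ⟨t', (hst t' (Fin.lt_def.2 (by omega))).2 h1, h2⟩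
    rw [hiff]

end Pool.Agent.X317.Lex
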