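import Mathlib
import Pool.Agent.X317.Lex.Order
import Pool.Agent.H677R3.RegComb

/-!
# Cocycles supported on a lexicographic segment
-/

set_option autoImplicit false
set_option linter.all false

open Finset Pool.Agent.H677R3.EdgeReg

namespace Pool.Agent.X317.Lex

variable {n : ℕ} {k : Type*} [Field k]

/-- the simplicial coboundary -/
def del (ω : Finset (Fin n) → k) (F : Finset (Fin n)) : k :=
  ∑ j ∈ F, sg k j F * ω (F.erase j)

theorem del_sub_smul (ω η : Finset (Fin n) → k) (c : k) (F : Finset (Fin n)) :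
    del (fun W => ω W - c * η W) F = del ω F - c * del η F := by
  unfold del
  rw [Finset.mul_sum, ← Finset.sum_sub_distrib]
  exact Finset.sum_congr rfl fun j _ => by ring

/-- the product of the sums of the blocks -/
noncomputable def eta (k : Type*) [Field k] (G W : Finset (Fin n)) : k :=
  open Classical in if Tr G W then 1 else 0

theorem eta_ne {G W : Finset (Fin n)} (h : eta k G W ≠ 0) : Tr G W := by
  by_contra h1
  unfold eta at h
  rw [if_neg h1] at h
  exact h rfl

variable [NeZero n]

theorem tr_erase {G F : Finset (Fin n)} {j0 j1 : Fin n} (hj0 : j0 ∈ F)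
    (hT : Tr G (F.erase j0)) (hj1 : j1 ∈ F.erase j0) (hc : cnt G j1 = cnt G j0) (j : Fin n)
    (hj : j ∈ F) : Tr G (F.erase j) ↔ j = j0 ∨ j = j1 := by
  have h01 : j1 ≠ j0 := Finset.ne_of_mem_erase hj1
  have hj1F : j1 ∈ F := Finset.mem_of_mem_erase hj1
  constructor
  · intro h
    by_contra hcon
    rw [not_or] at hcon
    have h1 := h.2 (Finset.mem_coe.2 (Finset.mem_erase.2 ⟨Ne.symm hcon.1, hj0⟩))
      (Finset.mem_coe.2 (Finset.mem_erase.2 ⟨Ne.symm hcon.2, hj1F⟩)) hc.symm
    exact h01 h1.symm
  · rintro (rfl | rfl)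
    · exact hT
    · refine ⟨?_, ?_⟩
      · rw [← hT.1, Finset.card_erase_of_mem hj, Finset.card_erase_of_mem hj0]
      · intro a ha b hb hab
        rw [Finset.mem_coe, Finset.mem_erase] at ha hb
        by_cases ha0 : a = j0
        · by_cases hb0 : b = j0
          · rw [ha0, hb0]
          · exfalso
            rw [ha0, ← hc] at hab
            have := hT.2 hj1 (Finset.mem_coe.2 (Finset.mem_erase.2 ⟨hb0, hb.2⟩)) hab
            exact hb.1 this.symm
        · by_cases hb0 : b = j0
          · exfalso
            rw [hb0, ← hc] at hab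
            have := hT.2 (Finset.mem_coe.2 (Finset.mem_erase.2 ⟨ha0, ha.2⟩)) hj1 hab
            exact ha.1 this
          · exact hT.2 (Finset.mem_coe.2 (Finset.mem_erase.2 ⟨ha0, ha.2⟩))
              (Finset.mem_coe.2 (Finset.mem_erase.2 ⟨hb0, hb.2⟩)) hab

theorem sg_adj {G F : Finset (Fin n)} {a b : Fin n} (hab : a < b) (ha : a ∈ F)
    (hc : cnt G a = cnt G b)
    (hu : ∀ x ∈ F, a < x → x < b → False) : sg k b F = - sg k a F := by
  unfold sg
  have h1 : F.filter (fun x => x < b) = insert a (F.filter (fun x => x < a)) := by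
    ext x
    rw [Finset.mem_insert, Finset.mem_filter, Finset.mem_filter]
    constructor
    · rintro ⟨hx, hxb⟩
      by_cases hxa : x = a
      · exact Or.inl hxa
      · rcases lt_or_gt_of_ne hxa with h | h
        · exact Or.inr ⟨hx, h⟩
        · exact (hu x hx h hxb).elim
    · rintro (rfl | ⟨hx, hxa⟩)
      · exact ⟨ha, hab⟩
      · exact ⟨hx, hxa.trans hab⟩
  have h2 : a ∉ F.filter (fun x => x < a) := fun h =>
    absurd (Finset.mem_filter.1 h).2 (lt_irrefl _)
  rw [h1, Finset.card_insert_of_notMem h2, pow_succ]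
  ring

theorem del_eta {G : Finset (Fin n)} (h0 : 0 ∈ G) (F : Finset (Fin n)) :
    del (eta k G) F = 0 := by
  classical
  by_cases hex : ∃ j0 ∈ F, Tr G (F.erase j0)
  · obtain ⟨j0, hj0, hT⟩ := hex
    obtain ⟨j1, hj1, hc⟩ := hT.surj h0 j0
    have h01 : j1 ≠ j0 := Finset.ne_of_mem_erase hj1
    have hj1F : j1 ∈ F := Finset.mem_of_mem_erase hj1
    have hiff := tr_erase hj0 hT hj1 hc
    have hsub : ({j0, j1} : Finset (Fin n)) ⊆ F := by
      intro x hx
      rw [Finset.mem_insert, Finset.mem_singleton] at hx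
      rcases hx with rfl | rfl
      · exact hj0
      · exact hj1F
    have h1 : del (eta k G) F = ∑ j ∈ ({j0, j1} : Finset (Fin n)), sg k j F * eta k G (F.erase j) := by
      unfold del
      symm
      refine Finset.sum_subset hsub fun j hj hj' => ?_
      rw [Finset.mem_insert, Finset.mem_singleton] at hj'
      unfold eta
      rw [if_neg (fun h => hj' ((hiff j hj).1 h)), mul_zero]
    rw [h1, Finset.sum_pair h01.symm]
    have e0 : eta k G (F.erase j0) = 1 := by
      unfold eta
      rw [if_pos hT]
    have e1 : eta k G (F.erase j1) = 1 := by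
      unfold eta
      rw [if_pos ((hiff j1 hj1F).2 (Or.inr rfl))]
    rw [e0, e1, mul_one, mul_one]
    have key : ∀ a b : Fin n, a < b → a ∈ F → b ∈ F → (a = j0 ∧ b = j1 ∨ a = j1 ∧ b = j0) →
        sg k b F = - sg k a F := by
      intro a b hab ha hb hor
      have hcab : cnt G a = cnt G b := by
        rcases hor with ⟨rfl, rfl⟩ | ⟨rfl, rfl⟩
        · exact hc.symm
        · exact hc
      refine sg_adj hab ha hcab ?_
      intro x hx hax hxb
      have h2 : cnt G x = cnt G a := le_antisymm
        ((cnt_mono G hxb.le).trans hcab.ge) (cnt_mono G hax.le)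
      have hxj0 : x ≠ j0 := by
        rcases hor with ⟨rfl, rfl⟩ | ⟨rfl, rfl⟩
        · exact hax.ne'
        · exact hxb.ne
      have hxj1 : x ≠ j1 := by
        rcases hor with ⟨rfl, rfl⟩ | ⟨rfl, rfl⟩
        · exact hxb.ne
        · exact hax.ne'
      have h3 : cnt G x = cnt G j1 := by
        rcases hor with ⟨rfl, rfl⟩ | ⟨rfl, rfl⟩
        · rw [h2, hcab]
        · exact h2
      exact hxj1 (hT.2 (Finset.mem_coe.2 (Finset.mem_erase.2 ⟨hxj0, hx⟩)) hj1 h3)
    rcases lt_or_gt_of_ne h01 with h | h
    · rw [key j1 j0 h hj1F hj0 (Or.inr ⟨rfl, rfl⟩)]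
      ring
    · rw [key j0 j1 h hj0 hj1F (Or.inl ⟨rfl, rfl⟩)]
      ring
  · unfold del
    refine Finset.sum_eq_zero fun j hj => ?_
    unfold eta
    rw [if_neg (fun h => hex ⟨j, hj, h⟩), mul_zero]

/-- The leading set of a cocycle contains the first variable. -/
theorem zero_mem_lead {ω : Finset (Fin n) → k} (hk : ∀ F, del ω F = 0) {G : Finset (Fin n)}
    (hG : ω G ≠ 0) (hmax : ∀ W, ω W ≠ 0 → Ge G W) : 0 ∈ G := by
  classical
  by_contra h0
  apply hG
  have h1 := hk (insert 0 G)
  unfold del at h1
  rw [Finset.sum_insert h0, Finset.erase_insert h0, Finset.sum_eq_zero, add_zero] at h1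
  · have h2 : sg k (0 : Fin n) (insert 0 G) ≠ 0 := by
      intro h
      have := sg_mul_self (k := k) (0 : Fin n) (insert 0 G)
      rw [h, mul_zero] at this
      exact zero_ne_one this
    exact (mul_eq_zero.1 h1).resolve_left h2
  · intro j hj
    have hj0 : j ≠ 0 := fun h => h0 (h ▸ hj)
    have h2 : ω ((insert 0 G).erase j) = 0 := by
      by_contra h3
      have h4 := hmax _ h3
      rw [ge_iff] at h4
      have h5 : Gt ((insert 0 G).erase j) G := by
        refine ⟨0, ?_, h0, ?_⟩
        · rw [Finset.mem_erase]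
          exact ⟨Ne.symm hj0, Finset.mem_insert_self _ _⟩
        · intro t ht
          exact absurd ht (not_lt.2 (Fin.zero_le _))
      rw [gt_iff] at h5
      omega
    rw [h2, mul_zero]

theorem exists_lead {ω : Finset (Fin n) → k} (h : ∃ W, ω W ≠ 0) :
    ∃ G, ω G ≠ 0 ∧ ∀ W, ω W ≠ 0 → Ge G W := by
  classical
  obtain ⟨W, hW⟩ := h
  obtain ⟨G, hG, hmax⟩ := Finset.exists_max_image (univ.filter fun W : Finset (Fin n) => ω W ≠ 0)
    val ⟨W, Finset.mem_filter.2 ⟨Finset.mem_univ _, hW⟩⟩
  refine ⟨G, (Finset.mem_filter.1 hG).2, fun W hW => ?_⟩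
  rw [ge_iff]
  exact hmax W (Finset.mem_filter.2 ⟨Finset.mem_univ _, hW⟩)

theorem descent (N : ℕ) : ∀ (ω : Finset (Fin n) → k), (∀ F, del ω F = 0) →
    ∀ G : Finset (Fin n), ω G ≠ 0 → (∀ W, ω W ≠ 0 → Ge G W) → val G ≤ N →
    ∃ H, 0 ∈ H ∧ Ge G H ∧ ω (w0 H) ≠ 0 ∧ ∀ W, ω W ≠ 0 → Ge W (w0 H) := by
  induction N using Nat.strong_induction_on with
  | _ N ih =>
    intro ω hk G hG hmax hN
    have h0 := zero_mem_lead hk hG hmax
    set ω' : Finset (Fin n) → k := fun W => ω W - ω G * eta k G W with hω'
    have hk' : ∀ F, del ω' F = 0 := by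
      intro F
      rw [hω', del_sub_smul, hk, del_eta h0, mul_zero, sub_zero]
    have hetaG : eta k G G = 1 := by
      unfold eta
      rw [if_pos (tr_self G)]
    have hω'G : ω' G = 0 := by
      rw [hω']
      simp only
      rw [hetaG, mul_one, sub_self]
    have hsupp : ∀ W, ω W ≠ 0 → ω' W ≠ 0 ∨ Tr G W := by
      intro W hW
      by_cases h1 : Tr G W
      · exact Or.inr h1
      · left
        rw [hω']
        simp only
        unfold eta
        rw [if_neg h1, mul_zero, sub_zero]
        exact hW
    by_cases hz : ∃ W, ω' W ≠ 0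
    · obtain ⟨G', hG', hmax'⟩ := exists_lead hz
      have hGG' : Gt G G' := by
        have h1 : G' ≠ G := by
          rintro rfl
          exact hG' hω'G
        have h2 : Ge G G' := by
          by_cases h3 : ω G' ≠ 0
          · exact hmax G' h3
          · rw [not_not] at h3
            have h4 : eta k G G' ≠ 0 := by
              intro h5
              apply hG'
              rw [hω']
              simp only
              rw [h3, h5, mul_zero, sub_zero]
            exact (eta_ne h4).ge h0
        rcases h2 with h2 | h2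
        · exact absurd h2.symm h1
        · exact h2
      have hval := gt_iff.1 hGG'
      obtain ⟨H, hH0, hG'H, hH, hHmin⟩ := ih (val G') (by omega) ω' hk' G' hG' hmax' le_rfl
      have hGH : Gt G H := by
        rw [gt_iff]
        rw [ge_iff] at hG'H
        omega
      have hw := w0_gt h0 hH0 hGH
      refine ⟨H, hH0, Or.inr hGH, ?_, ?_⟩
      · have h1 : eta k G (w0 H) = 0 := by
          by_contra h2
          have h3 := (eta_ne h2).ge_w0 h0
          rw [ge_iff] at h3
          rw [gt_iff] at hw
          omega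
        rw [hω'] at hH
        simp only at hH
        rw [h1, mul_zero, sub_zero] at hH
        exact hH
      · intro W hW
        rcases hsupp W hW with h1 | h1
        · exact hHmin W h1
        · have h2 := h1.ge_w0 h0
          rw [ge_iff] at h2 ⊢
          rw [gt_iff] at hw
          omega
    · push Not at hz
      have hω : ∀ W, ω W = ω G * eta k G W := by
        intro W
        have := hz W
        rw [hω'] at this
        simp only at this
        exact sub_eq_zero.1 this
      refine ⟨G, h0, Or.inl rfl, ?_, ?_⟩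
      · rw [hω]
        unfold eta
        rw [if_pos (tr_w0 h0), mul_one]
        exact hG
      · intro W hW
        rcases hsupp W hW with h1 | h1
        · exact absurd (hz W) h1
        · exact h1.ge_w0 h0

/-- **There is a nonzero cocycle supported on the segment from `u` to `v` if and only if
`w0 u` is at least `v`.** -/
theorem cocycle_iff {u v : Finset (Fin n)} (hu : 0 ∈ u) :
    (∃ ω : Finset (Fin n) → k, (∃ W, ω W ≠ 0) ∧ (∀ W, ω W ≠ 0 → W.card = u.card ∧ Ge u W ∧ Ge W v) ∧
      ∀ F, del ω F = 0) ↔ Ge (w0 u) v := by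
  constructor
  · rintro ⟨ω, hne, hsupp, hk⟩
    obtain ⟨G, hG, hmax⟩ := exists_lead hne
    obtain ⟨H, hH0, hGH, hH, -⟩ := descent (val G) ω hk G hG hmax le_rfl
    have h1 := (hsupp _ hH).2.2
    have h2 := (hsupp _ hG).2.1
    rw [ge_iff] at h1 h2 hGH ⊢
    by_cases h3 : u = H
    · rw [h3]
      exact h1
    · have h4 : Gt u H := by
        rw [gt_iff]
        refine lt_of_le_of_ne (hGH.trans h2) ?_
        intro h
        exact h3 (val_inj h).symm
      have h5 := w0_gt hu hH0 h4
      rw [gt_iff] at h5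
      omega
  · intro h
    refine ⟨eta k u, ⟨u, ?_⟩, ?_, del_eta hu⟩
    · unfold eta
      rw [if_pos (tr_self u)]
      exact one_ne_zero
    · intro W hW
      have h1 := eta_ne hW
      refine ⟨h1.1, h1.ge hu, ?_⟩
      have h2 := h1.ge_w0 hu
      rw [ge_iff] at h h2 ⊢
      omega

end Pool.Agent.X317.Lex
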