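import Mathlib
import Pool.Agent.X317.Kos.Hom

/-!
# Depth and Koszul homology

The length of the regular sequences in the ideal generated by `x 0, …, x (n - 1)` and the
vanishing of the Koszul homology.
-/

set_option autoImplicit false
set_option linter.all false

open Finset Pool.Agent.X317.Kos RingTheory.Sequence
open scoped Pointwise

namespace Pool.Agent.X317.Lex

universe u v

variable {A : Type u} [CommRing A] {n : ℕ}

/-- `H_i(x; M) ≠ 0` -/
def HNe (x : Fin n → A) (M : Type v) [AddCommGroup M] [Module A M] (i : ℕ) : Prop :=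
  ∃ f ∈ cycles x M i, f ∉ boundaries x M i

section step

variable {x : Fin n → A} {M : Type v} [AddCommGroup M] [Module A M] {r : A}

theorem dif_mk (f : Finset (Fin n) → M) :
    dif (QuotSMulTop r M) x (fun T => Submodule.Quotient.mk (f T)) =
      fun T => Submodule.Quotient.mk (dif M x f T) :=
  dif_map x x ((r • (⊤ : Submodule A M)).mkQ.toAddMonoidHom) (fun j m => rfl) f

theorem mk_eq_zero' (z : M) :
    (Submodule.Quotient.mk z : QuotSMulTop r M) = 0 ↔ ∃ y, r • y = z := by
  rw [Submodule.Quotient.mk_eq_zero, Submodule.mem_smul_pointwise_iff_exists]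
  exact ⟨fun ⟨y, _, h⟩ => ⟨y, h⟩, fun ⟨y, h⟩ => ⟨y, trivial, h⟩⟩

theorem smul_inj (hr : IsSMulRegular M r) {f g : Finset (Fin n) → M} (h : r • f = r • g) :
    f = g := by
  funext T
  exact hr (congrFun h T)

theorem step_up (hr : IsSMulRegular M r) (hrx : r ∈ Ideal.span (Set.range x)) {i : ℕ}
    (h : HNe x M i) : HNe x (QuotSMulTop r M) (i + 1) := by
  obtain ⟨f, hf, hnb⟩ := h
  obtain ⟨g, hg, hgf⟩ := mem_boundaries.1 (span_smul_mem_boundaries hf r hrx)
  refine ⟨fun T => Submodule.Quotient.mk (g T), ?_, ?_⟩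
  · rw [mem_cycles]
    refine ⟨fun T hT => ?_, ?_⟩
    · rw [hg T hT]
      rfl
    · rw [dif_mk, hgf]
      funext T
      rw [Pi.smul_apply, Pi.zero_apply, mk_eq_zero']
      exact ⟨f T, rfl⟩
  · intro hb
    apply hnb
    obtain ⟨w', hw', hwg⟩ := mem_boundaries.1 hb
    choose w hw using fun T => Submodule.Quotient.mk_surjective _ (w' T)
    have h1 : ∀ T, ∃ y, r • y = g T - dif M x w T := by
      intro T
      rw [← mk_eq_zero', Submodule.Quotient.mk_sub, sub_eq_zero]
      have h2 := congrFun (dif_mk (x := x) (r := r) w) T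
      rw [← h2]
      have h3 : (fun T => (Submodule.Quotient.mk (w T) : QuotSMulTop r M)) = w' := funext hw
      rw [h3, hwg]
    choose h hh using h1
    have h2 : r • h = g - dif M x w := funext hh
    refine boundary_of (mem_cycles.1 hf).1 ⟨h, ?_⟩
    apply smul_inj hr
    rw [← map_smul, h2, map_sub, dif_dif, sub_zero, hgf]

theorem step_down (hr : IsSMulRegular M r) {d : ℕ} (hd : d + 1 ≤ n)
    (hv : ∀ i, n < i + (d + 1) → ¬ HNe x M i) (i : ℕ) (hi : n < i + d) :
    ¬ HNe x (QuotSMulTop r M) i := by
  classical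
  rintro ⟨f', hf', hnb⟩
  apply hnb
  obtain ⟨hf1, hf2⟩ := mem_cycles.1 hf'
  choose f0 hf0 using fun T => Submodule.Quotient.mk_surjective _ (f' T)
  obtain ⟨i, rfl⟩ : ∃ i', i = i' + 1 := ⟨i - 1, by omega⟩
  set f := Kos.comp (i + 1) f0 with hf
  have hff' : (fun T => (Submodule.Quotient.mk (f T) : QuotSMulTop r M)) = f' := by
    funext T
    by_cases hT : T.card = i + 1
    · rw [hf, Kos.comp, if_pos hT, hf0]
    · rw [hf, comp_supp _ _ _ hT, hf1 T hT]
      rfl
  have h1 : ∀ T, ∃ y, r • y = dif M x f T := by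
    intro T
    rw [← mk_eq_zero']
    have h2 := congrFun (dif_mk (x := x) (r := r) f) T
    rw [← h2, hff', hf2]
    rfl
  choose g hg using h1
  have hg' : r • g = dif M x f := funext hg
  have hgc : g ∈ cycles x M i := by
    rw [mem_cycles]
    refine ⟨fun T hT => ?_, ?_⟩
    · apply hr
      show r • g T = r • 0
      rw [hg, smul_zero]
      exact dif_supp (comp_supp (i + 1) f0) T hT
    · apply smul_inj hr
      rw [← map_smul, hg', dif_dif, smul_zero]
  have h2 : g ∈ boundaries x M i := by
    by_contra h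
    exact hv i (by omega) ⟨g, hgc, h⟩
  obtain ⟨h, hh1, hh2⟩ := mem_boundaries.1 h2
  have h3 : f - r • h ∈ cycles x M (i + 1) := by
    rw [mem_cycles]
    refine ⟨fun T hT => ?_, ?_⟩
    · rw [Pi.sub_apply, Pi.smul_apply, hh1 T hT, hf, comp_supp _ _ _ hT, smul_zero, sub_zero]
    · rw [map_sub, map_smul, hh2, hg', sub_self]
  have h4 : f - r • h ∈ boundaries x M (i + 1) := by
    by_contra h'
    exact hv (i + 1) (by omega) ⟨_, h3, h'⟩
  obtain ⟨e, he1, he2⟩ := mem_boundaries.1 h4
  refine boundary_of hf1 ⟨fun T => Submodule.Quotient.mk (e T), ?_⟩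
  rw [dif_mk, he2, ← hff']
  funext T
  rw [Pi.sub_apply, Pi.smul_apply, Submodule.Quotient.mk_sub, sub_eq_self, mk_eq_zero']
  exact ⟨h T, rfl⟩

end step

/-- A regular sequence in `(x)` is short. -/
theorem add_length_le (x : Fin n → A) (rs : List A) : ∀ (M : Type v) [AddCommGroup M]
    [Module A M] (i : ℕ), HNe x M i → IsWeaklyRegular M rs →
    (∀ r ∈ rs, r ∈ Ideal.span (Set.range x)) → i + rs.length ≤ n := by
  induction rs with
  | nil =>
    intro M _ _ i h _ _
    obtain ⟨f, hf, hnb⟩ := h
    rw [List.length_nil, add_zero]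
    by_contra hlt
    apply hnb
    have h1 : f = 0 := by
      funext T
      refine (mem_cycles.1 hf).1 T ?_
      have := Finset.card_le_univ T
      rw [Fintype.card_fin] at this
      omega
    rw [h1]
    exact Submodule.zero_mem _
  | cons r rs ih =>
    intro M _ _ i h hreg hx
    rw [isWeaklyRegular_cons_iff] at hreg
    have h1 := step_up hreg.1 (hx r List.mem_cons_self) h
    have h2 := ih (QuotSMulTop r M) (i + 1) h1 hreg.2
      (fun r' hr' => hx r' (List.mem_cons_of_mem _ hr'))
    rw [List.length_cons]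
    omega

theorem exists_regular [IsNoetherianRing A] (x : Fin n → A) (M : Type v) [AddCommGroup M]
    [Module A M] [Module.Finite A M] (h : ¬ HNe x M n) :
    ∃ r ∈ Ideal.span (Set.range x), IsSMulRegular M r := by
  classical
  cases subsingleton_or_nontrivial M
  · exact ⟨0, Submodule.zero_mem _, IsSMulRegular.zero⟩
  by_contra! hcon
  have hsoc : ∀ z : M, (∀ j, x j • z = 0) → z = 0 := by
    intro z hz
    by_contra hz0
    apply h
    refine ⟨fun T => if T = univ then z else 0, ?_, ?_⟩
    · rw [mem_cycles]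
      refine ⟨fun T hT => ?_, ?_⟩
      · rw [if_neg]
        rintro rfl
        exact hT (by rw [Finset.card_univ, Fintype.card_fin])
      · funext T
        rw [dif_apply]
        refine Finset.sum_eq_zero fun j _ => ?_
        split_ifs
        · rw [hz, smul_zero]
        · rw [smul_zero, smul_zero]
    · intro hb
      obtain ⟨w, hw, hwz⟩ := mem_boundaries.1 hb
      have h1 : w = 0 := by
        funext T
        refine hw T ?_
        have := Finset.card_le_univ T
        rw [Fintype.card_fin] at this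
        omega
      rw [h1, map_zero] at hwz
      have h2 := congrFun hwz univ
      simp only [Pi.zero_apply, if_true] at h2
      exact hz0 h2.symm
  obtain ⟨P, hP, hle⟩ : ∃ p ∈ associatedPrimes A M, Ideal.span (Set.range x) ≤ p := by
    rcases associatedPrimes.nonempty A M with ⟨Ia, hIa⟩
    apply (Ideal.subset_union_prime_finite (associatedPrimes.finite A M) Ia Ia _).mp
    · rw [biUnion_associatedPrimes_eq_compl_regular A M]
      exact fun r hr => hcon r hr
    · exact fun I hin _ _ => IsAssociatedPrime.isPrime hin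
  obtain ⟨hPp, z, rfl⟩ := isAssociatedPrime_iff.1 (AssociatedPrimes.mem_iff.1 hP)
  have h1 : z = 0 := by
    apply hsoc
    intro j
    have h2 := hle (Ideal.subset_span ⟨j, rfl⟩)
    rw [Submodule.mem_colon_singleton] at h2
    exact (Submodule.mem_bot A).1 h2
  apply hPp.ne_top
  rw [h1, Ideal.eq_top_iff_one, Submodule.mem_colon_singleton, smul_zero]
  exact Submodule.zero_mem _

/-- Existence of regular sequences. -/
theorem exists_seq [IsNoetherianRing A] (x : Fin n → A) (d : ℕ) : ∀ (M : Type v)
    [AddCommGroup M] [Module A M] [Module.Finite A M], d ≤ n → (∀ i, n < i + d → ¬ HNe x M i) →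
    ∃ rs : List A, rs.length = d ∧ (∀ r ∈ rs, r ∈ Ideal.span (Set.range x)) ∧
      IsWeaklyRegular M rs := by
  induction d with
  | zero =>
    intro M _ _ _ _ _
    exact ⟨[], rfl, fun r hr => absurd hr List.not_mem_nil, IsWeaklyRegular.nil A M⟩
  | succ d ih =>
    intro M _ _ _ hd hv
    obtain ⟨r, hrx, hr⟩ := exists_regular x M (hv n (by omega))
    obtain ⟨rs, h1, h2, h3⟩ := ih (QuotSMulTop r M) (by omega) (step_down hr hd hv)
    refine ⟨r :: rs, by rw [List.length_cons, h1], ?_, IsWeaklyRegular.cons hr h3⟩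
    intro r' hr'
    rcases List.mem_cons.1 hr' with rfl | hr'
    · exact hrx
    · exact h2 r' hr'

end Pool.Agent.X317.Lex
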