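import Mathlib
import Pool.Agent.X317.Lex.Depth
import Pool.Agent.H677R3.RegKoszul

/-!
# Koszul homology of the quotient by a monomial ideal
-/

set_option autoImplicit false
set_option linter.all false

open Finset Pool.Agent.X317.Kos Pool.Agent.H677R3.EdgeReg MvPolynomial

namespace Pool.Agent.X317.Lex

variable {n : ℕ} {k : Type*} [Field k]

/-- the monomials of multidegree `b` outside of the ideal -/
def QQ (P : (Fin n → ℕ) → Prop) (b : Fin n →₀ ℕ) (T : Finset (Fin n)) : Prop :=
  ind T ≤ b ∧ ¬ P ⇑(b - ind T)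

theorem mk_koszulD (J : Ideal (MvPolynomial (Fin n) k))
    (F : Finset (Fin n) → MvPolynomial (Fin n) k) (T : Finset (Fin n)) :
    dif (MvPolynomial (Fin n) k ⧸ J) (X : Fin n → MvPolynomial (Fin n) k)
      (fun T => Ideal.Quotient.mk J (F T)) T =
      Ideal.Quotient.mk J (koszulD F T) := by
  rw [dif_apply, koszulD, map_sum]
  refine Finset.sum_congr rfl fun j _ => ?_
  rw [map_mul, map_pow, map_neg, map_one, map_mul, zsmul_eq_mul]
  unfold sgn
  push_cast
  rfl

/-- the part of multidegree `b` outside of the ideal -/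
noncomputable def res (P : (Fin n → ℕ) → Prop) (F : Finset (Fin n) → MvPolynomial (Fin n) k)
    (b : Fin n →₀ ℕ) (T : Finset (Fin n)) : k :=
  open Classical in if QQ P b T then Pool.Agent.H677R3.EdgeReg.comp F b T else 0

theorem res_of {P : (Fin n → ℕ) → Prop} {F : Finset (Fin n) → MvPolynomial (Fin n) k}
    {b : Fin n →₀ ℕ} {T : Finset (Fin n)} (h : QQ P b T) : res P F b T = Pool.Agent.H677R3.EdgeReg.comp F b T :=
  if_pos h

theorem QQ_insert {P : (Fin n → ℕ) → Prop} (hP : ∀ c c' : Fin n → ℕ, P c → c ≤ c' → P c')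
    {b : Fin n →₀ ℕ} {T : Finset (Fin n)} (h : QQ P b T) {j : Fin n} (hj : j ∉ T)
    (hle : ind (insert j T) ≤ b) : QQ P b (insert j T) := by
  refine ⟨hle, fun h1 => h.2 (hP _ _ h1 ?_)⟩
  intro v
  rw [ind_insert hj]
  simp only [Finsupp.coe_tsub, Pi.sub_apply, Finsupp.coe_add, Pi.add_apply]
  omega

theorem cd_res {P : (Fin n → ℕ) → Prop} (hP : ∀ c c' : Fin n → ℕ, P c → c ≤ c' → P c')
    (F : Finset (Fin n) → MvPolynomial (Fin n) k) {b : Fin n →₀ ℕ} {T : Finset (Fin n)}
    (h : QQ P b T) : cd (res P F b) T = Pool.Agent.H677R3.EdgeReg.comp (koszulD F) b T := by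
  rw [comp_koszulD]
  unfold cd
  refine Finset.sum_congr rfl fun j hj => ?_
  rw [Finset.mem_compl] at hj
  congr 1
  unfold res
  by_cases h1 : QQ P b (insert j T)
  · rw [if_pos h1]
  · rw [if_neg h1]
    unfold Pool.Agent.H677R3.EdgeReg.comp
    rw [if_neg (fun h2 => h1 (QQ_insert hP h hj h2))]

theorem comp_eq_zero_of_mem {J : Ideal (MvPolynomial (Fin n) k)} {P : (Fin n → ℕ) → Prop}
    (hJ : ∀ p, p ∈ J ↔ ∀ c ∈ p.support, P ⇑c) {F : Finset (Fin n) → MvPolynomial (Fin n) k}
    {b : Fin n →₀ ℕ} {T : Finset (Fin n)} (h : QQ P b T) (hF : F T ∈ J) :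
    Pool.Agent.H677R3.EdgeReg.comp F b T = 0 := by
  unfold Pool.Agent.H677R3.EdgeReg.comp
  rw [if_pos h.1]
  by_contra h1
  exact h.2 ((hJ _).1 hF _ (MvPolynomial.mem_support_iff.2 h1))

theorem not_hne {J : Ideal (MvPolynomial (Fin n) k)} {P : (Fin n → ℕ) → Prop}
    (hJ : ∀ p, p ∈ J ↔ ∀ c ∈ p.support, P ⇑c)
    (hP : ∀ c c' : Fin n → ℕ, P c → c ≤ c' → P c') {i : ℕ}
    (h : ∀ b, RelAcyc k (QQ P b) i) :
    ¬ HNe (X : Fin n → MvPolynomial (Fin n) k) (MvPolynomial (Fin n) k ⧸ J) i := by
  classical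
  rintro ⟨f', hf', hnb⟩
  apply hnb
  obtain ⟨hf1, hf2⟩ := mem_cycles.1 hf'
  choose F0 hF0 using fun T => Ideal.Quotient.mk_surjective (f' T)
  set F : Finset (Fin n) → MvPolynomial (Fin n) k := Pool.Agent.X317.Kos.comp i F0 with hF
  have hFc : ∀ T, T.card ≠ i → F T = 0 := comp_supp i F0
  have hFf : (fun T => Ideal.Quotient.mk J (F T)) = f' := by
    funext T
    by_cases hT : T.card = i
    · rw [hF, Pool.Agent.X317.Kos.comp, if_pos hT, hF0]
    · rw [hFc T hT, hf1 T hT, map_zero]
  have hFJ : ∀ T, koszulD F T ∈ J := by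
    intro T
    rw [← Ideal.Quotient.eq_zero_iff_mem, ← mk_koszulD, hFf, hf2]
    rfl
  have hres : ∀ b T, res P F b T ≠ 0 → QQ P b T ∧ T.card = i := by
    intro b T h1
    unfold res at h1
    split_ifs at h1 with h2
    · refine ⟨h2, ?_⟩
      by_contra h3
      apply h1
      unfold Pool.Agent.H677R3.EdgeReg.comp
      rw [hFc T h3, coeff_zero]
      split_ifs <;> rfl
    · exact absurd rfl h1
  have hex : ∀ b, ∃ g : Finset (Fin n) → k, (∀ T, g T ≠ 0 → QQ P b T ∧ T.card = i + 1) ∧
      ∀ T, QQ P b T → cd g T = res P F b T := by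
    intro b
    refine h b (res P F b) (hres b) fun T hT => ?_
    rw [cd_res hP F hT]
    exact comp_eq_zero_of_mem hJ hT (hFJ T)
  choose G hG1 hG2 using hex
  let B : Finset (Fin n →₀ ℕ) := Finset.univ.biUnion (fun T => (F T).support.image (· + ind T))
  have hB : ∀ b, b ∉ B → ∀ T, Pool.Agent.H677R3.EdgeReg.comp F b T = 0 := by
    intro b hb T
    by_contra h
    apply hb
    unfold Pool.Agent.H677R3.EdgeReg.comp at h
    split_ifs at h with hle
    · refine Finset.mem_biUnion.mpr ⟨T, Finset.mem_univ _, Finset.mem_image.mpr ⟨b - ind T,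
        MvPolynomial.mem_support_iff.mpr h, tsub_add_cancel_of_le hle⟩⟩
    · exact absurd rfl h
  let g : Finset (Fin n) → MvPolynomial (Fin n) k :=
    fun T => ∑ b ∈ B, MvPolynomial.monomial (b - ind T) (G b T)
  have hg : ∀ b T, Pool.Agent.H677R3.EdgeReg.comp g b T = if b ∈ B then G b T else 0 := by
    intro b T
    have key : ∀ b' ∈ B, ind T ≤ b → (MvPolynomial.monomial (b' - ind T) (G b' T)).coeff (b - ind T) =
        if b' = b then G b T else 0 := by
      intro b' _ hle
      rw [MvPolynomial.coeff_monomial]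
      by_cases h0 : G b' T = 0
      · by_cases h1 : b' = b
        · subst h1; simp [h0]
        · rw [h0]; simp [h1]
      · have hle' := (hG1 b' T h0).1.1
        by_cases h1 : b' = b
        · subst h1; simp
        · rw [if_neg h1, if_neg]
          intro h2
          apply h1
          rw [← tsub_add_cancel_of_le hle', ← tsub_add_cancel_of_le hle, h2]
    unfold Pool.Agent.H677R3.EdgeReg.comp
    by_cases hle : ind T ≤ b
    · rw [if_pos hle]
      simp only [g]
      rw [MvPolynomial.coeff_sum, Finset.sum_congr rfl (fun b' hb' => key b' hb' hle)]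
      rw [Finset.sum_ite_eq' B b]
    · rw [if_neg hle]
      split_ifs with hb
      · by_contra h
        exact hle (hG1 b T (fun h' => h h'.symm)).1.1
      · rfl
  refine boundary_of hf1 ⟨fun T => Ideal.Quotient.mk J (g T), ?_⟩
  funext T
  rw [mk_koszulD, ← hFf]
  simp only
  rw [Ideal.Quotient.eq, hJ]
  intro c hc
  by_contra hPc
  rw [MvPolynomial.mem_support_iff, coeff_sub, ← comp_add_ind, ← comp_add_ind,
    comp_koszulD] at hc
  apply hc
  have hQ : QQ P (c + ind T) T := by
    refine ⟨by simp, ?_⟩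
    rw [add_tsub_cancel_right]
    exact hPc
  set b := c + ind T with hb
  have hgb : Pool.Agent.H677R3.EdgeReg.comp g b = fun T => if b ∈ B then G b T else 0 := by
    funext T
    exact hg b T
  rw [hgb]
  by_cases hbB : b ∈ B
  · simp only [if_pos hbB]
    rw [hG2 b T hQ, res_of hQ, sub_self]
  · simp only [if_neg hbB]
    rw [cd_zero, hB b hbB, sub_self]

theorem hne {J : Ideal (MvPolynomial (Fin n) k)} {P : (Fin n → ℕ) → Prop}
    (hJ : ∀ p, p ∈ J ↔ ∀ c ∈ p.support, P ⇑c)
    (hP : ∀ c c' : Fin n → ℕ, P c → c ≤ c' → P c') {i : ℕ} (b : Fin n →₀ ℕ)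
    (h : ¬ RelAcyc k (QQ P b) i) :
    HNe (X : Fin n → MvPolynomial (Fin n) k) (MvPolynomial (Fin n) k ⧸ J) i := by
  classical
  unfold RelAcyc at h
  push Not at h
  obtain ⟨a, ha, hac, hne⟩ := h
  let F : Finset (Fin n) → MvPolynomial (Fin n) k := fun T => MvPolynomial.monomial (b - ind T) (a T)
  have hFc : ∀ T, T.card ≠ i → F T = 0 := by
    intro T hT
    have : a T = 0 := by
      by_contra h
      exact hT (ha T h).2
    simp only [F, this, map_zero]
  have hFcomp : ∀ b' T, Pool.Agent.H677R3.EdgeReg.comp F b' T = if b' = b then a T else 0 := by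
    intro b' T
    unfold Pool.Agent.H677R3.EdgeReg.comp
    simp only [F, MvPolynomial.coeff_monomial]
    by_cases h0 : a T = 0
    · simp [h0]
    · have hle := (ha T h0).1.1
      by_cases h1 : b' = b
      · subst h1; simp [hle]
      · rw [if_neg h1]
        split_ifs with h2 h3
        · exfalso
          apply h1
          rw [← tsub_add_cancel_of_le hle, ← tsub_add_cancel_of_le h2, h3]
        · rfl
        · rfl
  refine ⟨fun T => Ideal.Quotient.mk J (F T), ?_, ?_⟩
  · rw [mem_cycles]
    refine ⟨fun T hT => ?_, ?_⟩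
    · rw [hFc T hT, map_zero]
    · funext T
      rw [mk_koszulD, Pi.zero_apply, Ideal.Quotient.eq_zero_iff_mem, hJ]
      intro c hc
      by_contra hPc
      rw [MvPolynomial.mem_support_iff, ← comp_add_ind, comp_koszulD] at hc
      apply hc
      have hQ : QQ P (c + ind T) T := by
        refine ⟨by simp, ?_⟩
        rw [add_tsub_cancel_right]
        exact hPc
      set b' := c + ind T with hb'
      have : Pool.Agent.H677R3.EdgeReg.comp F b' = fun T => if b' = b then a T else 0 := by
        funext T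
        exact hFcomp b' T
      rw [this]
      by_cases h1 : b' = b
      · simp only [if_pos h1]
        exact hac T (h1 ▸ hQ)
      · simp only [if_neg h1]
        exact cd_zero T
  · intro hb
    obtain ⟨w', hw1, hw2⟩ := mem_boundaries.1 hb
    choose w0 hw0 using fun T => Ideal.Quotient.mk_surjective (w' T)
    set w : Finset (Fin n) → MvPolynomial (Fin n) k := Pool.Agent.X317.Kos.comp (i + 1) w0 with hw
    have hwc : ∀ T, T.card ≠ i + 1 → w T = 0 := comp_supp (i + 1) w0
    have hww : (fun T => Ideal.Quotient.mk J (w T)) = w' := by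
      funext T
      by_cases hT : T.card = i + 1
      · rw [hw, Pool.Agent.X317.Kos.comp, if_pos hT, hw0]
      · rw [hwc T hT, hw1 T hT, map_zero]
    obtain ⟨T, hT, hcon⟩ := hne (res P w b) (by
      intro T h1
      unfold res at h1
      split_ifs at h1 with h2
      · refine ⟨h2, ?_⟩
        by_contra h3
        apply h1
        unfold Pool.Agent.H677R3.EdgeReg.comp
        rw [hwc T h3, coeff_zero]
        split_ifs <;> rfl
      · exact absurd rfl h1)
    apply hcon
    rw [cd_res hP w hT]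
    have h1 : koszulD w T - F T ∈ J := by
      rw [← Ideal.Quotient.eq, ← mk_koszulD, hww, hw2]
    have h2 := comp_eq_zero_of_mem hJ (F := fun T => koszulD w T - F T) hT h1
    have h3 : Pool.Agent.H677R3.EdgeReg.comp (fun T => koszulD w T - F T) b T =
        Pool.Agent.H677R3.EdgeReg.comp (koszulD w) b T - Pool.Agent.H677R3.EdgeReg.comp F b T := by
      unfold Pool.Agent.H677R3.EdgeReg.comp
      rw [if_pos hT.1, if_pos hT.1, if_pos hT.1, coeff_sub]
    rw [h3, hFcomp, if_pos rfl, sub_eq_zero] at h2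
    exact h2

end Pool.Agent.X317.Lex
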