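import Mathlib
import Pool.Agent.X317.Lex.Mono
import Pool.Agent.X317.Lex.Comb

/-!
# The depth of the quotient by a squarefree lexsegment ideal
-/

set_option autoImplicit false
set_option linter.all false

open Finset Pool.Agent.X317.Kos Pool.Agent.H677R3.EdgeReg MvPolynomial

namespace Pool.Agent.X317.Lex

variable {n : ℕ} {k : Type*} [Field k]

/-- The depth of `S/I` with respect to `(x_1, …, x_n)`. -/
noncomputable def depth (I : Ideal (MvPolynomial (Fin n) k)) : ℕ∞ :=
  sSup {d : ℕ∞ | ∃ rs : List (MvPolynomial (Fin n) k),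
    (∀ r ∈ rs, r ∈ Ideal.span (Set.range (X : Fin n → MvPolynomial (Fin n) k))) ∧
    RingTheory.Sequence.IsRegular (MvPolynomial (Fin n) k ⧸ I) rs ∧ d = (rs.length : ℕ∞)}

theorem depth_le {I : Ideal (MvPolynomial (Fin n) k)} {i : ℕ}
    (h : HNe (X : Fin n → MvPolynomial (Fin n) k) (MvPolynomial (Fin n) k ⧸ I) i) :
    depth I ≤ ((n - i : ℕ) : ℕ∞) := by
  unfold depth
  refine sSup_le ?_
  rintro d ⟨rs, h1, h2, rfl⟩
  have h3 := add_length_le X rs _ i h h2.toIsWeaklyRegular h1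
  exact_mod_cast (by omega : rs.length ≤ n - i)

theorem le_depth {I : Ideal (MvPolynomial (Fin n) k)}
    (hI : I ≤ Ideal.span (Set.range (X : Fin n → MvPolynomial (Fin n) k))) {d : ℕ} (hd : d ≤ n)
    (h : ∀ i, n < i + d →
      ¬ HNe (X : Fin n → MvPolynomial (Fin n) k) (MvPolynomial (Fin n) k ⧸ I) i) :
    (d : ℕ∞) ≤ depth I := by
  obtain ⟨rs, h1, h2, h3⟩ := exists_seq X d (MvPolynomial (Fin n) k ⧸ I) hd h
  unfold depth
  refine le_sSup ⟨rs, h2, ⟨h3, ?_⟩, by rw [h1]⟩
  intro htop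
  have h4 : (Ideal.Quotient.mk I (1 : MvPolynomial (Fin n) k)) ∈
      (Ideal.ofList rs • ⊤ : Submodule (MvPolynomial (Fin n) k) (MvPolynomial (Fin n) k ⧸ I)) := by
    rw [← htop]
    trivial
  have h5 : Ideal.ofList rs ≤ Ideal.span (Set.range (X : Fin n → MvPolynomial (Fin n) k)) :=
    Ideal.span_le.2 h2
  have h6 : (Ideal.ofList rs • ⊤ : Submodule (MvPolynomial (Fin n) k) (MvPolynomial (Fin n) k ⧸ I)) ≤
      Submodule.map I.mkQ (Ideal.span (Set.range (X : Fin n → MvPolynomial (Fin n) k))) := by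
    rw [Submodule.smul_le]
    intro r hr z _
    obtain ⟨w, rfl⟩ := Ideal.Quotient.mk_surjective z
    exact ⟨r * w, Ideal.mul_mem_right _ _ (h5 hr), rfl⟩
  obtain ⟨w, hw, hw1⟩ := h6 h4
  have h7 : w - 1 ∈ I := by
    rw [← Ideal.Quotient.eq]
    exact hw1
  have h8 : (1 : MvPolynomial (Fin n) k) ∈
      Ideal.span (Set.range (X : Fin n → MvPolynomial (Fin n) k)) := by
    have := Ideal.sub_mem _ hw (hI h7)
    rwa [sub_sub_cancel] at this
  have h9 : (Ideal.span (Set.range (X : Fin n → MvPolynomial (Fin n) k))) ≤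
      RingHom.ker (MvPolynomial.constantCoeff : MvPolynomial (Fin n) k →+* k) := by
    rw [Ideal.span_le]
    rintro _ ⟨j, rfl⟩
    rw [SetLike.mem_coe, RingHom.mem_ker, constantCoeff_X]
  have h10 := h9 h8
  rw [RingHom.mem_ker, map_one] at h10
  exact one_ne_zero h10

/-- relative acyclicity when the family is full in the three levels -/
theorem relAcyc_full {Q : Finset (Fin n) → Prop} {B : Finset (Fin n)} {i : ℕ} (hi : 1 ≤ i)
    (hQB : ∀ T, Q T → T ⊆ B) (hBQ : ∀ T, T ⊆ B → i ≤ T.card + 1 → Q T) : RelAcyc k Q i := by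
  classical
  intro a ha hac
  by_cases hz : ∀ T, a T = 0
  · exact ⟨fun _ => 0, fun T h => absurd rfl h, fun T _ => by rw [cd_zero, hz]⟩
  push Not at hz
  obtain ⟨T0, hT0⟩ := hz
  obtain ⟨h1, h2⟩ := ha T0 hT0
  obtain ⟨v, hv⟩ : T0.Nonempty := Finset.card_pos.1 (by omega)
  have hvB : v ∈ B := hQB T0 h1 hv
  have hc0 : ∀ T, cd a T = 0 := by
    intro T
    by_cases h : T ⊆ B ∧ T.card + 1 = i
    · exact hac T (hBQ T h.1 (by omega))
    · unfold cd
      refine Finset.sum_eq_zero fun j hj => ?_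
      rw [Finset.mem_compl] at hj
      by_contra h3
      have h4 := ha (insert j T) (fun h5 => h3 (by rw [h5, mul_zero]))
      rw [Finset.card_insert_of_notMem hj] at h4
      exact h ⟨(Finset.subset_insert j T).trans (hQB _ h4.1), h4.2⟩
  refine ⟨Pool.Agent.H677R3.EdgeReg.hv v a, ?_, ?_⟩
  · intro T hT
    unfold Pool.Agent.H677R3.EdgeReg.hv at hT
    split_ifs at hT with hvT
    · have h3 : a (T.erase v) ≠ 0 := fun h => hT (by rw [h, mul_zero])
      obtain ⟨h4, h5⟩ := ha _ h3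
      have h6 : T.card = i + 1 := by
        rw [← h5, Finset.card_erase_of_mem hvT]
        have : 0 < T.card := Finset.card_pos.mpr ⟨v, hvT⟩
        omega
      refine ⟨hBQ T ?_ (by omega), h6⟩
      intro x hx
      by_cases hxv : x = v
      · exact hxv ▸ hvB
      · exact hQB _ h4 (Finset.mem_erase.2 ⟨hxv, hx⟩)
    · exact absurd rfl hT
  · intro T _
    have h5 := homotopy v a T
    have h6 : Pool.Agent.H677R3.EdgeReg.hv v (cd a) T = 0 := by
      unfold Pool.Agent.H677R3.EdgeReg.hv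
      split_ifs
      · rw [hc0, mul_zero]
      · rfl
    rw [h6, add_zero] at h5
    exact h5

end Pool.Agent.X317.Lex
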