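import Mathlib
import Pool.Agent.X317.Lex.Main

/-!
# Squarefree lexsegment ideals of depth `q - 1`
-/

set_option autoImplicit false
set_option linter.all false

open Finset Pool.Agent.X317.Kos Pool.Agent.H677R3.EdgeReg MvPolynomial

namespace Pool.Agent.X317.Lex

variable {n : ℕ} {k : Type*} [Field k]

theorem card_lt_split (j : Fin n) (T : Finset (Fin n)) :
    (T.filter (fun t => t < j)).card + (Tᶜ.filter (fun t => t < j)).card = (j : ℕ) := by
  classical
  rw [← Finset.card_union_of_disjoint]
  · rw [← Finset.filter_union, Finset.union_compl]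
    rw [show (univ.filter fun t : Fin n => t < j) = Finset.Iio j by
      ext t; simp]
    exact Fin.card_Iio j
  · exact Finset.disjoint_filter_filter disjoint_compl_right

/-- the complementation -/
noncomputable def cpl (a : Finset (Fin n) → k) (G : Finset (Fin n)) : k :=
  (-1) ^ (∑ g ∈ G, (g : ℕ)) * a Gᶜ

theorem del_cpl (a : Finset (Fin n) → k) (T : Finset (Fin n)) :
    del (cpl a) Tᶜ = (-1) ^ (∑ g ∈ Tᶜ, (g : ℕ)) * cd a T := by
  classical
  unfold del cd cpl
  rw [Finset.mul_sum]
  refine Finset.sum_congr rfl fun j hj => ?_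
  rw [Finset.compl_erase, compl_compl]
  have h1 : ∑ g ∈ Tᶜ, (g : ℕ) = (j : ℕ) + ∑ g ∈ Tᶜ.erase j, (g : ℕ) :=
    (Finset.add_sum_erase Tᶜ (fun g => (g : ℕ)) hj).symm
  have h2 := card_lt_split j T
  have h3 : (-1 : k) ^ (∑ g ∈ Tᶜ, (g : ℕ)) * sg k j T =
      sg k j Tᶜ * (-1) ^ (∑ g ∈ Tᶜ.erase j, (g : ℕ)) := by
    unfold sg
    rw [h1, ← h2]
    have h4 : (-1 : k) ^ (T.filter (fun t => t < j)).card * (-1) ^ (T.filter (fun t => t < j)).card
        = 1 := by
      rw [← mul_pow]
      simp
    rw [pow_add, pow_add]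
    calc (-1 : k) ^ (T.filter (fun t => t < j)).card * (-1) ^ (Tᶜ.filter (fun t => t < j)).card *
          (-1) ^ (∑ g ∈ Tᶜ.erase j, (g : ℕ)) * (-1) ^ (T.filter (fun t => t < j)).card
        = ((-1 : k) ^ (T.filter (fun t => t < j)).card * (-1) ^ (T.filter (fun t => t < j)).card) *
          ((-1) ^ (Tᶜ.filter (fun t => t < j)).card * (-1) ^ (∑ g ∈ Tᶜ.erase j, (g : ℕ))) := by ring
      _ = _ := by rw [h4, one_mul]
  calc sg k j Tᶜ * ((-1) ^ (∑ g ∈ Tᶜ.erase j, (g : ℕ)) * a (insert j T))
      = (sg k j Tᶜ * (-1) ^ (∑ g ∈ Tᶜ.erase j, (g : ℕ))) * a (insert j T) := by ring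
    _ = _ := by rw [← h3]; ring

theorem cpl_cpl (a : Finset (Fin n) → k) (T : Finset (Fin n)) :
    (-1 : k) ^ (∑ g ∈ Tᶜ, (g : ℕ)) * cpl a Tᶜ = a T := by
  unfold cpl
  rw [compl_compl, ← mul_assoc, ← mul_pow]
  simp

/-- the condition on the exponents for the segment ideal -/
def PP (L : Finset (Fin n) → Prop) (c : Fin n → ℕ) : Prop := ∃ G, L G ∧ ∀ g ∈ G, 1 ≤ c g

theorem PP_mono (L : Finset (Fin n) → Prop) (c c' : Fin n → ℕ) (h : PP L c) (hcc : c ≤ c') :
    PP L c' := by
  obtain ⟨G, h1, h2⟩ := h
  exact ⟨G, h1, fun g hg => (h2 g hg).trans (hcc g)⟩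

/-- the ideal generated by a family of squarefree monomials -/
noncomputable def sqIdeal (k : Type*) [Field k] (L : Finset (Fin n) → Prop) : Ideal (MvPolynomial (Fin n) k) :=
  Ideal.span {p | ∃ G, L G ∧ p = ∏ i ∈ G, X i}

theorem prod_X_eq (G : Finset (Fin n)) :
    (∏ i ∈ G, X i : MvPolynomial (Fin n) k) = monomial (ind G) 1 := by
  classical
  induction G using Finset.induction_on with
  | empty =>
    rw [Finset.prod_empty]
    have : ind (∅ : Finset (Fin n)) = 0 := by
      ext v
      simp
    rw [this]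
    rfl
  | insert a G ha ih =>
    rw [Finset.prod_insert ha, ih, ind_insert ha, add_comm]
    unfold MvPolynomial.X
    rw [MvPolynomial.monomial_mul, mul_one]

theorem mem_sqIdeal {L : Finset (Fin n) → Prop} (p : MvPolynomial (Fin n) k) :
    p ∈ sqIdeal k L ↔ ∀ c ∈ p.support, PP L ⇑c := by
  classical
  have h1 : sqIdeal k L = Ideal.span ((fun s => monomial s (1 : k)) '' {s | ∃ G, L G ∧ s = ind G}) := by
    unfold sqIdeal
    congr 1
    ext q
    constructor
    · rintro ⟨G, hG, rfl⟩
      exact ⟨ind G, ⟨G, hG, rfl⟩, (prod_X_eq G).symm⟩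
    · rintro ⟨_, ⟨G, hG, rfl⟩, rfl⟩
      exact ⟨G, hG, (prod_X_eq G).symm⟩
  rw [h1, mem_ideal_span_monomial_image]
  refine forall₂_congr fun c _ => ?_
  constructor
  · rintro ⟨_, ⟨G, hG, rfl⟩, hle⟩
    refine ⟨G, hG, fun g hg => ?_⟩
    have := hle g
    rwa [ind_apply, if_pos hg] at this
  · rintro ⟨G, hG, h⟩
    refine ⟨ind G, ⟨G, hG, rfl⟩, fun g => ?_⟩
    rw [ind_apply]
    split_ifs with hg
    · exact h g hg
    · exact Nat.zero_le _

theorem sqIdeal_le {L : Finset (Fin n) → Prop} (hL : ∀ G, L G → G.Nonempty) :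
    sqIdeal k L ≤ Ideal.span (Set.range (X : Fin n → MvPolynomial (Fin n) k)) := by
  unfold sqIdeal
  rw [Ideal.span_le]
  rintro _ ⟨G, hG, rfl⟩
  obtain ⟨g, hg⟩ := hL G hG
  rw [SetLike.mem_coe, ← Finset.prod_erase_mul G _ hg]
  exact Ideal.mul_mem_left _ _ (Ideal.subset_span ⟨g, rfl⟩)

section segment

variable {L : Finset (Fin n) → Prop} {q : ℕ} (hL : ∀ G, L G → G.card = q)

theorem QQ_toggle {b : Fin n →₀ ℕ} {v : Fin n} (hv : 2 ≤ b v) (T : Finset (Fin n)) (hvT : v ∉ T) :
    QQ (PP L) b T ↔ QQ (PP L) b (insert v T) := by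
  classical
  have hval : ∀ g, g ≠ v → ind (insert v T) g = ind T g := by
    intro g hg
    rw [ind_apply, ind_apply]
    simp [hg]
  have hv1 : ind (insert v T) v = 1 := by
    rw [ind_apply, if_pos (Finset.mem_insert_self _ _)]
  have hv0 : ind T v = 0 := by
    rw [ind_apply, if_neg hvT]
  have hle : ind T ≤ b ↔ ind (insert v T) ≤ b := by
    constructor
    · intro h g
      by_cases hg : g = v
      · rw [hg, hv1]
        omega
      · rw [hval g hg]
        exact h g
    · intro h g
      by_cases hg : g = v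
      · rw [hg, hv0]
        exact Nat.zero_le _
      · rw [← hval g hg]
        exact h g
  have hP : PP L ⇑(b - ind T) ↔ PP L ⇑(b - ind (insert v T)) := by
    have hc : ∀ g, 1 ≤ (b - ind T) g ↔ 1 ≤ (b - ind (insert v T)) g := by
      intro g
      simp only [Finsupp.coe_tsub, Pi.sub_apply]
      by_cases hg : g = v
      · rw [hg, hv1, hv0]
        omega
      · rw [hval g hg]
    unfold PP
    refine exists_congr fun G => and_congr_right fun _ => forall₂_congr fun g _ => hc g
  unfold QQ
  rw [hle, hP]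

include hL in
theorem not_PP {b : Fin n →₀ ℕ} (hb : ∀ v, b v ≤ 1) {T : Finset (Fin n)}
    (hT : b.support.card < q + T.card) (hTb : T ⊆ b.support) : ¬ PP L ⇑(b - ind T) := by
  classical
  rintro ⟨G, hG, h⟩
  have h1 : G ⊆ b.support \ T := by
    intro g hg
    have h2 := h g hg
    simp only [Finsupp.coe_tsub, Pi.sub_apply, ind_apply] at h2
    have h3 := hb g
    rw [Finset.mem_sdiff, Finsupp.mem_support_iff]
    split_ifs at h2 with h4
    · omega
    · exact ⟨by omega, h4⟩
  have h2 := Finset.card_le_card h1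
  rw [hL G hG, Finset.card_sdiff_of_subset hTb] at h2
  have := Finset.card_le_card hTb
  omega

theorem ind_le_iff {b : Fin n →₀ ℕ} {T : Finset (Fin n)} : ind T ≤ b ↔ T ⊆ b.support := by
  constructor
  · intro h g hg
    have := h g
    rw [ind_apply, if_pos hg] at this
    rw [Finsupp.mem_support_iff]
    omega
  · intro h g
    rw [ind_apply]
    split_ifs with hg
    · have := Finsupp.mem_support_iff.1 (h hg)
      omega
    · exact Nat.zero_le _

include hL in
theorem relAcyc_sq {b : Fin n →₀ ℕ} {i : ℕ} (hi : 1 ≤ i)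
    (h : (∃ v, 2 ≤ b v) ∨ b.support.card + 1 < q + i) : RelAcyc k (QQ (PP L) b) i := by
  by_cases h2 : ∃ v, 2 ≤ b v
  · obtain ⟨v, hv⟩ := h2
    exact relAcyc_toggle _ i v (QQ_toggle hv)
  · push Not at h2
    have h3 : b.support.card + 1 < q + i := by
      rcases h with ⟨v, hv⟩ | h
      · exact absurd (h2 v) (by omega)
      · exact h
    refine relAcyc_full (B := b.support) hi (fun T hT => ind_le_iff.1 hT.1) fun T hT hTi => ?_
    exact ⟨ind_le_iff.2 hT, not_PP hL (fun v => by have := h2 v; omega) (by omega) hT⟩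

include hL in
/-- the vanishing above `n - q + 1` -/
theorem not_hne_sq {i : ℕ} (hi : 1 ≤ i) (h : n + 1 < q + i) :
    ¬ HNe (X : Fin n → MvPolynomial (Fin n) k) (MvPolynomial (Fin n) k ⧸ sqIdeal k L) i := by
  refine not_hne mem_sqIdeal (PP_mono L) fun b => relAcyc_sq hL hi (Or.inr ?_)
  have := Finset.card_le_univ b.support
  rw [Fintype.card_fin] at this
  omega

include hL in
theorem hne_sq_iff {i : ℕ} (hi : 1 ≤ i) (hin : n + 1 = q + i) (hq : 1 ≤ q) :
    HNe (X : Fin n → MvPolynomial (Fin n) k) (MvPolynomial (Fin n) k ⧸ sqIdeal k L) i ↔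
      ∃ ω : Finset (Fin n) → k, (∃ W, ω W ≠ 0) ∧ (∀ W, ω W ≠ 0 → L W) ∧ ∀ F, del ω F = 0 := by
  classical
  have hn : 0 < n := by omega
  have hQ1 : ∀ T : Finset (Fin n), QQ (PP L) (ind univ) T ↔ ¬ ∃ G, L G ∧ G ⊆ Tᶜ := by
    intro T
    unfold QQ PP
    have h1 : ind T ≤ ind univ := by
      intro g
      rw [ind_apply, ind_apply, if_pos (Finset.mem_univ _)]
      split_ifs <;> omega
    rw [and_iff_right h1, not_iff_not]
    refine exists_congr fun G => and_congr_right fun _ => ?_
    rw [Finset.subset_iff]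
    refine forall₂_congr fun g _ => ?_
    simp only [Finsupp.coe_tsub, Pi.sub_apply, ind_apply, Finset.mem_univ, if_true,
      Finset.mem_compl]
    split_ifs with h <;> simp [h]
  have hbig : ∀ T : Finset (Fin n), i ≤ T.card → QQ (PP L) (ind univ) T := by
    intro T hT
    rw [hQ1]
    rintro ⟨G, hG, hGT⟩
    have h1 := Finset.card_le_card hGT
    rw [hL G hG, Finset.card_compl, Fintype.card_fin] at h1
    have := Finset.card_le_univ T
    rw [Fintype.card_fin] at this
    omega
  constructor
  · intro h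
    have h1 : ¬ RelAcyc k (QQ (PP L) (ind univ)) i := by
      intro hac
      refine not_hne mem_sqIdeal (PP_mono L) (fun b => ?_) h
      by_cases hb : (∃ v, 2 ≤ b v) ∨ b.support.card + 1 < q + i
      · exact relAcyc_sq hL hi hb
      · push Not at hb
        have h2 : b = ind univ := by
          have h3 : b.support = univ := by
            apply Finset.eq_univ_of_card
            have := Finset.card_le_univ b.support
            rw [Fintype.card_fin] at this ⊢
            omega
          ext g
          have h4 : g ∈ b.support := by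
            rw [h3]
            exact Finset.mem_univ _
          rw [Finsupp.mem_support_iff] at h4
          have h5 := hb.1 g
          rw [ind_apply, if_pos (Finset.mem_univ _)]
          omega
        rw [h2]
        exact hac
    unfold RelAcyc at h1
    push Not at h1
    obtain ⟨a, ha, hac, hne⟩ := h1
    have hca : ∀ T, cd a T ≠ 0 → L Tᶜ := by
      intro T hT
      have h2 : ¬ QQ (PP L) (ind univ) T := fun h => hT (hac T h)
      rw [hQ1, not_not] at h2
      obtain ⟨G, hG, hGT⟩ := h2
      have h3 : T.card + 1 = i := by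
        unfold cd at hT
        obtain ⟨j, hj, hj2⟩ := Finset.exists_ne_zero_of_sum_ne_zero hT
        rw [Finset.mem_compl] at hj
        have h4 := (ha (insert j T) (fun h5 => hj2 (by rw [h5, mul_zero]))).2
        rw [Finset.card_insert_of_notMem hj] at h4
        exact h4
      have h4 : G = Tᶜ := by
        refine Finset.eq_of_subset_of_card_le hGT ?_
        rw [hL G hG, Finset.card_compl, Fintype.card_fin]
        omega
      rw [← h4]
      exact hG
    refine ⟨cpl (cd a), ?_, ?_, ?_⟩
    · by_contra hz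
      push Not at hz
      have hz' : ∀ T, cd a T = 0 := by
        intro T
        rw [← cpl_cpl (cd a) T, hz, mul_zero]
      obtain ⟨T, hT, hcon⟩ := hne (Pool.Agent.H677R3.EdgeReg.hv ⟨0, hn⟩ a) (by
        intro T hT
        unfold Pool.Agent.H677R3.EdgeReg.hv at hT
        split_ifs at hT with hvT
        · have h3 : a (T.erase ⟨0, hn⟩) ≠ 0 := fun h => hT (by rw [h, mul_zero])
          obtain ⟨h4, h5⟩ := ha _ h3
          have h6 : T.card = i + 1 := by
            rw [← h5, Finset.card_erase_of_mem hvT]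
            have : 0 < T.card := Finset.card_pos.mpr ⟨_, hvT⟩
            omega
          exact ⟨hbig T (by omega), h6⟩
        · exact absurd rfl hT)
      apply hcon
      have h5 := homotopy ⟨0, hn⟩ a T
      have h6 : Pool.Agent.H677R3.EdgeReg.hv ⟨0, hn⟩ (cd a) T = 0 := by
        unfold Pool.Agent.H677R3.EdgeReg.hv
        split_ifs
        · rw [hz', mul_zero]
        · rfl
      rw [h6, add_zero] at h5
      exact h5
    · intro W hW
      unfold cpl at hW
      have := hca Wᶜ (fun h => hW (by rw [h, mul_zero]))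
      rwa [compl_compl] at this
    · intro F
      have h2 := del_cpl (cd a) Fᶜ
      rw [cd_cd, mul_zero, compl_compl] at h2
      exact h2
  · rintro ⟨ω, ⟨W, hW⟩, hsupp, hk⟩
    refine hne mem_sqIdeal (PP_mono L) (ind univ) fun hac => ?_
    -- the chain of complements
    let a' : Finset (Fin n) → k := fun T => (-1) ^ (∑ g ∈ Tᶜ, (g : ℕ)) * ω Tᶜ
    have hωa : ω = cpl a' := by
      funext G
      simp only [cpl, a']
      rw [compl_compl, ← mul_assoc, ← mul_pow]
      simp
    have hca' : ∀ T, cd a' T = 0 := by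
      intro T
      have h1 := del_cpl a' T
      rw [← hωa, hk] at h1
      have h2 : ((-1 : k) ^ (∑ g ∈ Tᶜ, (g : ℕ))) ≠ 0 := pow_ne_zero _ (by simp)
      exact (mul_eq_zero.1 h1.symm).resolve_left h2
    have ha'L : ∀ T, a' T ≠ 0 → L Tᶜ := by
      intro T hT
      apply hsupp
      intro h
      apply hT
      simp only [a']
      rw [h, mul_zero]
    have hcda : ∀ T, cd (Pool.Agent.H677R3.EdgeReg.hv ⟨0, hn⟩ a') T = a' T := by
      intro T
      have h5 := homotopy ⟨0, hn⟩ a' T
      have h6 : Pool.Agent.H677R3.EdgeReg.hv ⟨0, hn⟩ (cd a') T = 0 := by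
        unfold Pool.Agent.H677R3.EdgeReg.hv
        split_ifs
        · rw [hca', mul_zero]
        · rfl
      rw [h6, add_zero] at h5
      exact h5
    have hcardL : ∀ T, L Tᶜ → T.card + 1 = i := by
      intro T hT
      have h1 := hL _ hT
      rw [Finset.card_compl, Fintype.card_fin] at h1
      have := Finset.card_le_univ T
      rw [Fintype.card_fin] at this
      omega
    obtain ⟨c, hc1, hc2⟩ := hac (Pool.Agent.H677R3.EdgeReg.hv ⟨0, hn⟩ a') (by
      intro T hT
      unfold Pool.Agent.H677R3.EdgeReg.hv at hT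
      split_ifs at hT with hvT
      · have h3 : a' (T.erase ⟨0, hn⟩) ≠ 0 := fun h => hT (by rw [h, mul_zero])
        have h4 := hcardL _ (ha'L _ h3)
        rw [Finset.card_erase_of_mem hvT] at h4
        have : 0 < T.card := Finset.card_pos.mpr ⟨_, hvT⟩
        have h6 : T.card = i := by omega
        exact ⟨hbig T (by omega), h6⟩
      · exact absurd rfl hT) (by
      intro T hT
      rw [hcda]
      by_contra h
      rw [hQ1] at hT
      exact hT ⟨Tᶜ, ha'L T h, Finset.Subset.refl _⟩)
    have hca : ∀ T, cd c T = Pool.Agent.H677R3.EdgeReg.hv ⟨0, hn⟩ a' T := by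
      intro T
      by_cases hT : T.card = i
      · exact hc2 T (hbig T hT.ge)
      · have h1 : cd c T = 0 := by
          unfold cd
          refine Finset.sum_eq_zero fun j hj => ?_
          rw [Finset.mem_compl] at hj
          by_contra h3
          have h4 := (hc1 (insert j T) (fun h5 => h3 (by rw [h5, mul_zero]))).2
          rw [Finset.card_insert_of_notMem hj] at h4
          omega
        rw [h1]
        unfold Pool.Agent.H677R3.EdgeReg.hv
        split_ifs with hvT
        · have h2 : a' (T.erase ⟨0, hn⟩) = 0 := by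
            by_contra h3
            have h4 := hcardL _ (ha'L _ h3)
            rw [Finset.card_erase_of_mem hvT] at h4
            have : 0 < T.card := Finset.card_pos.mpr ⟨_, hvT⟩
            omega
          rw [h2, mul_zero]
        · rfl
    apply hW
    have h1 : a' Wᶜ = 0 := by
      rw [← hcda]
      have h2 : Pool.Agent.H677R3.EdgeReg.hv ⟨0, hn⟩ a' = cd c := by
        funext T
        exact (hca T).symm
      rw [h2, cd_cd]
    simp only [a'] at h1
    rw [compl_compl] at h1
    have h2 : ((-1 : k) ^ (∑ g ∈ W, (g : ℕ))) ≠ 0 := pow_ne_zero _ (by simp)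
    exact (mul_eq_zero.1 h1).resolve_left h2

end segment

/-- **The depth of `S/I` is `q - 1` if and only if `w0 u` is at least `v`.** -/
theorem main {q : ℕ} (hq : 2 ≤ q) {u v : Finset (Fin n)} (hu : u.card = q) (hv : v.card = q)
    (hu0 : ∃ a ∈ u, (a : ℕ) = 0) :
    depth (sqIdeal k fun G => G.card = q ∧ Ge u G ∧ Ge G v) = ((q - 1 : ℕ) : ℕ∞) ↔
      Ge (w0 u) v := by
  classical
  obtain ⟨a, hau, ha0⟩ := hu0
  have hn : NeZero n := ⟨by have := a.2; omega⟩
  have hu0' : (0 : Fin n) ∈ u := by
    have : a = 0 := Fin.ext (by rw [ha0]; rfl)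
    rw [← this]
    exact hau
  have hqn : q ≤ n := by
    have := Finset.card_le_univ u
    rw [Fintype.card_fin, hu] at this
    exact this
  set L : Finset (Fin n) → Prop := fun G => G.card = q ∧ Ge u G ∧ Ge G v with hLdef
  have hL : ∀ G, L G → G.card = q := fun G h => h.1
  have hle : sqIdeal k L ≤ Ideal.span (Set.range (X : Fin n → MvPolynomial (Fin n) k)) :=
    sqIdeal_le fun G h => Finset.card_pos.1 (by rw [hL G h]; omega)
  have hiff := hne_sq_iff (k := k) hL (i := n + 1 - q) (by omega) (by omega) (by omega)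
  have hco := cocycle_iff (k := k) (v := v) hu0'
  rw [hu] at hco
  rw [← hco, ← hiff]
  constructor
  · intro hd
    by_contra hcon
    have h1 : ((q : ℕ) : ℕ∞) ≤ depth (sqIdeal k L) := by
      refine le_depth hle hqn fun i hi => ?_
      by_cases h2 : i = n + 1 - q
      · rw [h2]
        exact hcon
      · exact not_hne_sq hL (by omega) (by omega)
    rw [hd] at h1
    have h2 : q ≤ q - 1 := by exact_mod_cast h1
    omega
  · intro h
    refine le_antisymm ?_ ?_
    · have h1 := depth_le h
      have h2 : n - (n + 1 - q) = q - 1 := by omega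
      rw [h2] at h1
      exact h1
    · exact le_depth hle (by omega) fun i hi => not_hne_sq hL (by omega) (by omega)

end Pool.Agent.X317.Lex
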